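import Pool.Agent.N790.CM.C
import Pool.Agent.N671.DA.Win
import Pool.Agent.N835.FT.Count

/-!
# The total stopping time in sparse sequences: all integers near all multiples of Carmichael's function of almost all integers, and near the denominators of good approximations

`l(n) ≤ n` cannot be proved for one large `n` without a bound for `l(m)` for smaller `m`. But how small? Let `0 < β ≤ 1` be as
small as we like, and call `n` falling if its trajectory goes below `n ^ β` within `2 (log₂ (2 n))²` steps. For a falling large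
`n` the inequality `l(n) ≤ n` follows from the much weaker `l(m) ≤ K m ^ A` for the `m < n ^ β`, for any `A < 1 / β`.

(1) All `n ≤ X` but at most `O(X ^ (1 - (1 - H) β + ε))` are falling, where `H = 0.9499...` is the binary entropy of
`log 2 / log 3`. This is the exponent of `MP_2d22f3_nt.UniformPowerSaving`, where nothing is said about the time.

(2) We then find ALL integers of sparse sequences of windows among the falling integers. (A) For all `u ≤ N` but
`N / (log N) ^ U` and ALL multiples `w ≤ N ^ D` of Carmichael's function `λ(u)` (for example Euler's function `φ(u)`), EVERY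
`n ≥ 1` with `|n - G(w)| ≤ w ^ κ` is falling, if `G` has steps bounded below by a positive constant and growth at most `v ^ d`,
`D ≥ 1` and `D (d (1 - (1 - H) β) + κ) < 1`; and the same for the common multiples `w` of the `F p`, for `p` dividing `u`,
`F` a function which takes each positive value at boundedly many primes. (B) For all `α` in `ℝ ^ j` outside a set of Hausdorff
dimension at most `(j + d (1 - (1 - H) β) + κ) / (1 + τ)`, for all large `q` with `‖q α_i - b_i‖ ≤ c q ^ (-τ)` for all `i`,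
EVERY `n ≥ 1` with `|n - G(q)| ≤ q ^ κ` is falling.

Some `w` are multiples of `λ(u)` for more than `N ^ (1 - δ)` of the `u ≤ N`, so that (A) does not follow from the number of the
exceptions; it uses `Pool/Agent/N790/CM`. (B) uses `Pool/Agent/N671/DA`, (1) follows the proof of `Pool/Agent/H828R3/GP`.
-/

set_option autoImplicit false

namespace Pool.Agent.Results.MP_e43fce_nt.CarmichaelMultiples

open Filter Topology
open Pool.Agent.N733.TG (Expanding expanding_pow)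
open Pool.Agent.N790.CM (FewTimes Carries OnMultiples fewTimes_pred pred_dvd_carmichael keep_good_nat)
open Pool.Agent.N671.DA (Solves approx_good_nat)

/-- the Collatz function -/
def C (n : ℕ) : ℕ := if n % 2 = 0 then n / 2 else 3 * n + 1

/-- `l(n) ≤ t`: one of the iterates `C^(k)(n)` with `k ≤ t` is `1` -/
def StopsBy (t : ℝ) (n : ℕ) : Prop := ∃ k : ℕ, (k : ℝ) ≤ t ∧ C^[k] n = 1

/-- Within `2 (log₂ (2 n))²` steps the trajectory of `n` falls below `n ^ β`. -/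
def Falls (β : ℝ) (n : ℕ) : Prop :=
  ∃ j : ℕ, (j : ℝ) ≤ 2 * Real.logb 2 (2 * n) ^ 2 ∧ ((C^[j] n : ℕ) : ℝ) < (n : ℝ) ^ β

/-- the entropy `H = 0.9499...` -/
noncomputable def H : ℝ := Real.binEntropy (Real.log 2 / Real.log 3) / Real.log 2

/-- `Rep m` holds for all `m` in sparse sequences of windows: (A) near all common multiples `w ≤ N ^ D` for almost all `u ≤ N`,
(B) near the denominators of good simultaneous approximations of almost all `α`. -/
def Sparse (s : ℝ) (Rep : ℕ → Prop) : Prop :=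
  (∀ (G : ℕ → ℝ) (d : ℝ), Expanding G d → ∀ κ D : ℝ, 0 ≤ κ → 1 ≤ D → D * (d * s + κ) < 1 →
    OnMultiples D (fun w => ∀ m : ℕ, 1 ≤ m → |(m : ℝ) - G w| ≤ (w : ℝ) ^ κ → Rep m)) ∧
  (∀ (G : ℕ → ℝ) (d : ℝ), Expanding G d → ∀ κ : ℝ, 0 ≤ κ → κ ≤ 1 → ∀ (j : ℕ) (b : Fin j → ℝ) (τ : ℝ), 0 < τ →
    ∃ E : Set (Fin j → ℝ), dimH E ≤ ENNReal.ofReal ((j + (d * s + κ)) / (1 + τ)) ∧
      ∀ α, α ∉ E → ∀ c : ℝ, ∃ Q : ℕ, ∀ q : ℕ, Q ≤ q → Solves α b q (c * (q : ℝ) ^ (-τ)) →
        ∀ m : ℕ, 1 ≤ m → |(m : ℝ) - G q| ≤ (q : ℝ) ^ κ → Rep m)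

/-- a power saving gives both statements on sparse sequences -/
lemma sparse {Rep : ℕ → Prop} {s : ℝ} (hs : 0 ≤ s)
    (h : ∀ ε : ℝ, 0 < ε → ∃ K : ℝ, ∀ X : ℕ, 1 ≤ X →
      ({t : ℕ | 1 ≤ t ∧ t ≤ X ∧ ¬ Rep t}.ncard : ℝ) ≤ K * (X : ℝ) ^ (s + ε)) : Sparse s Rep := by
  have hP : ∀ ε : ℝ, 0 < ε → ∃ C : ℝ, ∀ X : ℕ, 1 ≤ X →
      ({t : ℕ | 1 ≤ t ∧ t ≤ X ∧ True ∧ ¬ Rep t}.ncard : ℝ) ≤ C * (X : ℝ) ^ (s + ε) := by
    intro ε hε
    obtain ⟨K, hK⟩ := h ε hε
    refine ⟨K, fun X hX => le_trans (le_of_eq ?_) (hK X hX)⟩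
    congr 2
    ext t
    exact ⟨fun h => ⟨h.1, h.2.1, h.2.2.2⟩, fun h => ⟨h.1, h.2.1, trivial, h.2.2⟩⟩
  constructor
  · intro G d hG κ D hκ hD h1
    refine (keep_good_nat (fun _ => True) Rep hG (s := s) (κ := κ) (B := D) hs hκ hD h1 hP).mono ?_
    intro w _ hw m hm hmw
    exact hw m hm trivial hmw
  · intro G d hG κ hκ hκ1 j b τ hτ
    have hG' : Pool.Agent.N671.DA.Expanding G d := ⟨hG.one_le, hG.step, hG.growth⟩
    obtain ⟨E, hE, hE2⟩ := approx_good_nat (fun _ => True) Rep hG' (s := s) (κ := κ) hs hκ hκ1 hP b hτ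
    refine ⟨E, hE, fun α hα c => ?_⟩
    obtain ⟨Q, hQ⟩ := hE2 α hα c
    exact ⟨Q, fun q hq h1 m hm h2 => hQ q hq h1 m hm trivial h2⟩

lemma C_pos {n : ℕ} (h : 1 ≤ n) : 1 ≤ C n := by
  unfold C
  split_ifs <;> omega

lemma iter_pos (k : ℕ) {n : ℕ} (h : 1 ≤ n) : 1 ≤ C^[k] n := by
  induction k with
  | zero => exact h
  | succ k ih => rw [Function.iterate_succ_apply']; exact C_pos ih

/-- the time is small -/
lemma small_time {K θ : ℝ} (hθ : θ < 1) : ∀ᶠ x : ℝ in atTop,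
    2 * Real.logb 2 (2 * x) ^ 2 + K * x ^ θ ≤ x := by
  have hl : 0 < Real.log 2 := Real.log_pos (by norm_num)
  have h1 := (Real.isLittleO_pow_log_id_atTop (n := 2)).bound (c := Real.log 2 ^ 2 / 8) (by positivity)
  have h2 : Tendsto (fun x : ℝ => 2 * x) atTop atTop := tendsto_id.const_mul_atTop (by norm_num)
  have h3 := h2.eventually h1
  have h4 : ∀ᶠ x : ℝ in atTop, x ^ (-(1 - θ)) < 1 / (2 * (|K| + 1)) :=
    (tendsto_rpow_neg_atTop (by linarith)).eventually_lt_const (by positivity)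
  filter_upwards [h3, h4, eventually_gt_atTop 0] with x h3 h4 hx
  have h5 : Real.log (2 * x) ^ 2 ≤ Real.log 2 ^ 2 / 8 * (2 * x) := by
    simp only [id, Real.norm_eq_abs] at h3
    rw [abs_of_pos (show (0 : ℝ) < 2 * x by linarith)] at h3
    exact (le_abs_self _).trans h3
  have h6 : 2 * Real.logb 2 (2 * x) ^ 2 ≤ x / 2 := by
    rw [Real.logb, div_pow, mul_div_assoc', div_le_iff₀ (by positivity)]
    nlinarith
  have h7 : K * x ^ θ ≤ x / 2 := by
    have e : x ^ θ = x * x ^ (-(1 - θ)) := by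
      nth_rw 2 [← Real.rpow_one x]
      rw [← Real.rpow_add hx]
      congr 1
      ring
    have h8 : K * x ^ θ ≤ |K| * x ^ θ := mul_le_mul_of_nonneg_right (le_abs_self _) (by positivity)
    have h9 : (|K| + 1) * x ^ (-(1 - θ)) ≤ 1 / 2 := by
      have := mul_le_mul_of_nonneg_left h4.le (show 0 ≤ |K| + 1 by positivity)
      refine this.trans (le_of_eq ?_)
      field_simp
    have h10 : 0 < x ^ (-(1 - θ)) := Real.rpow_pos_of_pos hx _
    have h11 : |K| * x ^ (-(1 - θ)) ≤ 1 / 2 := by nlinarith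
    calc K * x ^ θ ≤ |K| * x ^ θ := h8
      _ = x * (|K| * x ^ (-(1 - θ))) := by rw [e]; ring
      _ ≤ x * (1 / 2) := mul_le_mul_of_nonneg_left h11 hx.le
      _ = x / 2 := by ring
  linarith

/-- a falling exception to `l(n) ≤ n` needs a far larger exception far below -/
lemma reduce {A β K : ℝ} (hA : 0 ≤ A) (hK : 0 ≤ K) (hAβ : A * β < 1) : ∃ N : ℕ, ∀ n : ℕ, N ≤ n →
    Falls β n → ¬ StopsBy n n → ∃ m : ℕ, 1 ≤ m ∧ (m : ℝ) < (n : ℝ) ^ β ∧ ¬ StopsBy (K * (m : ℝ) ^ A) m := by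
  obtain ⟨x₀, hx₀⟩ := eventually_atTop.1 (small_time (K := K) (θ := A * β) hAβ)
  refine ⟨max ⌈x₀⌉₊ 1, fun n hn ⟨j, hj1, hj2⟩ hns => ?_⟩
  have hn1 : 1 ≤ n := (le_max_right _ _).trans hn
  have hnx : x₀ ≤ n := (Nat.le_ceil x₀).trans (by exact_mod_cast (le_max_left _ _).trans hn)
  refine ⟨C^[j] n, iter_pos j hn1, hj2, fun ⟨k, hk1, hk2⟩ => hns ⟨k + j, ?_, ?_⟩⟩
  · have h1 := hx₀ n hnx
    have h2 : ((C^[j] n : ℕ) : ℝ) ^ A ≤ (n : ℝ) ^ (A * β) := by
      rw [mul_comm, Real.rpow_mul (Nat.cast_nonneg n)]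
      exact Real.rpow_le_rpow (Nat.cast_nonneg _) hj2.le hA
    have h3 := mul_le_mul_of_nonneg_left h2 hK
    push_cast
    linarith
  · rw [Function.iterate_add_apply]
    exact hk2

/-- **Theorem.** (0) `0.049 < 1 - H`, and let `0 < β ≤ 1`. (1) For every `ε > 0` all but at most `K X ^ (1 - (1 - H) β + ε)` of
the `n ≤ X` are falling: some iterate `C^(j)(n)` with `j ≤ 2 (log₂ (2 n))²` is less than `n ^ β`. (2) ALL integers in the sparse
sequences of windows (A) and (B) of `Sparse` are falling, with `s = 1 - (1 - H) β`. (3) If `A β < 1`, then a large falling `n`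
with `l(n) > n` requires some `m < n ^ β` with `l(m) > K m ^ A`. (4) `F p = p - 1` takes each positive value at most once, the
multiples of `λ(u)` are common multiples for this `F` and `u`, and `a v ^ d` with `a > 0`, `d ≥ 1` is an example of `G`. -/
theorem result : 0.049 < 1 - H ∧
    (∀ β : ℝ, 0 < β → β ≤ 1 →
      (∀ ε : ℝ, 0 < ε → ∃ K : ℝ, ∀ X : ℕ, 1 ≤ X →
        ({n : ℕ | 1 ≤ n ∧ n ≤ X ∧ ¬ Falls β n}.ncard : ℝ) ≤ K * (X : ℝ) ^ (1 - (1 - H) * β + ε)) ∧
      Sparse (1 - (1 - H) * β) (Falls β)) ∧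
    (∀ A β K : ℝ, 0 ≤ A → 0 ≤ K → A * β < 1 → ∃ N : ℕ, ∀ n : ℕ, N ≤ n → Falls β n → ¬ StopsBy n n →
      ∃ m : ℕ, 1 ≤ m ∧ (m : ℝ) < (n : ℝ) ^ β ∧ ¬ StopsBy (K * (m : ℝ) ^ A) m) ∧
    (FewTimes (fun p => p - 1) 1 ∧
      (∀ (y : ℝ) (u w : ℕ), ArithmeticFunction.carmichael u ∣ w → Carries (fun p => p - 1) y u w) ∧
      ∀ a d : ℝ, 0 < a → 1 ≤ d → Expanding (fun v => a * (v : ℝ) ^ d) d) := by
  have hb1 : H < 0.951 := Pool.Agent.H319R2.beta_lt
  have hb0 : 0 ≤ H := Pool.Agent.N835.FT.beta_nonneg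
  refine ⟨by linarith, fun β h0 h1 => ?_, fun A β K hA hK hAβ => reduce hA hK hAβ, fewTimes_pred, ?_,
    fun a d ha hd => expanding_pow ha hd⟩
  · have h2 : ∀ ε : ℝ, 0 < ε → ∃ K : ℝ, ∀ X : ℕ, 1 ≤ X →
        ({n : ℕ | 1 ≤ n ∧ n ≤ X ∧ ¬ Falls β n}.ncard : ℝ) ≤ K * (X : ℝ) ^ (1 - (1 - H) * β + ε) :=
      fun ε hε => Pool.Agent.N835.FT.saving h0 h1 ε hε
    exact ⟨h2, sparse (by nlinarith) h2⟩
  · intro y u w h p hp _ hpu _
    exact (pred_dvd_carmichael hp hpu).trans h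

end Pool.Agent.Results.MP_e43fce_nt.CarmichaelMultiples
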