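import Pool.Agent.N905.EX.Loc

set_option autoImplicit false

/-!
The exceptions to `l(n) ≤ n` climb and spread: at most `A R ^ 0.94` terms of a trajectory of the Collatz
function, before the first visit to `1`, lie in an interval of length `2 R`, wherever it is; so if `l(n) > n`
and the trajectory does not enter a cycle other than that of `1`, then for every real `y` most of its first
`n` terms are at a distance of at least `c n ^ (50 / 47)` from `y`. The exponent `0.94` is below the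
entropy exponent `0.94995...` (and `50 / 47 = 1.0638...`).
-/

namespace Pool.Agent.Results.MP_e43fce_nt.ClimbExplicit

open Finset

/-- The Collatz function. -/
def C (n : ℕ) : ℕ := if n % 2 = 0 then n / 2 else 3 * n + 1

open Classical in
/-- The total stopping time `l(n)`: the least `k ≥ 0` with `C^(k)(n) = 1`, and `⊤ = ∞` if there is none. -/
noncomputable def l (n : ℕ) : ℕ∞ :=
  if h : ∃ k : ℕ, C^[k] n = 1 then ((Nat.find h : ℕ) : ℕ∞) else ⊤

/-- The trajectory of `n` enters a cycle which does not contain `1`. -/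
def EntersOtherCycle (n : ℕ) : Prop :=
  ∃ i p : ℕ, 1 ≤ p ∧ C^[i + p] n = C^[i] n ∧ ∀ j : ℕ, C^[j] n ≠ 1

/-- The number of the `j < L` with `|C^(j)(n) - y| ≤ R`. -/
noncomputable def near (n L : ℕ) (y R : ℝ) : ℕ := {j : ℕ | j < L ∧ |((C^[j] n : ℕ) : ℝ) - y| ≤ R}.ncard

/-- the shortcut map -/
abbrev S : ℤ → ℤ := Pool.Agent.TH930.EBQ.T 1

lemma S_even {x : ℤ} (h : x % 2 = 0) : S x = x / 2 := by
  change (if x % 2 = 0 then x / 2 else (3 * x + 1) / 2) = x / 2
  rw [if_pos h]

lemma S_odd {x : ℤ} (h : x % 2 = 1) : S x = (3 * x + 1) / 2 := by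
  change (if x % 2 = 0 then x / 2 else (3 * x + 1) / 2) = (3 * x + 1) / 2
  rw [if_neg (by omega)]

lemma C_even {m : ℕ} (h : m % 2 = 0) : C m = m / 2 := if_pos h

lemma C_odd {m : ℕ} (h : m % 2 = 1) : C m = 3 * m + 1 := if_neg (by omega)

/-- the terms of the Collatz trajectory -/
lemma form (n j : ℕ) : ∃ i, ((C^[j] n : ℕ) : ℤ) = S^[i] n ∨
    (S^[i] (n : ℤ) % 2 = 1 ∧ ((C^[j] n : ℕ) : ℤ) = 3 * S^[i] n + 1) := by
  induction j with
  | zero => exact ⟨0, Or.inl rfl⟩
  | succ j ih =>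
    obtain ⟨i, h | ⟨h1, h2⟩⟩ := ih
    · rcases Int.emod_two_eq_zero_or_one (S^[i] (n : ℤ)) with h' | h'
      · refine ⟨i + 1, Or.inl ?_⟩
        rw [Function.iterate_succ_apply', Function.iterate_succ_apply', S_even h', ← h]
        rw [← h] at h'
        rw [C_even (by omega)]
        omega
      · refine ⟨i, Or.inr ⟨h', ?_⟩⟩
        rw [Function.iterate_succ_apply', ← h]
        rw [← h] at h'
        rw [C_odd (by omega)]
        push_cast
        ring
    · refine ⟨i + 1, Or.inl ?_⟩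
      rw [Function.iterate_succ_apply', Function.iterate_succ_apply', S_odd h1, ← h2]
      rw [C_even (by omega)]
      omega

/-- few terms near any point -/
lemma few : ∃ A : ℝ, 0 < A ∧ ∀ n L : ℕ,
    (∀ i < L, ∀ j < L, C^[i] n = C^[j] n → i = j) → ∀ y R : ℝ, 1 ≤ R →
      (near n L y R : ℝ) ≤ A * R ^ (94 / 100 : ℝ) := by
  classical
  obtain ⟨A, hA0, h⟩ := Pool.Agent.N905.EX.sparse_ex (η := 94 / 100) Pool.Agent.N905.EX.eta0_lt (by norm_num)
  refine ⟨2 * A, by positivity, ?_⟩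
  intro n L hinj y R hR
  -- finite sets of terms of the shortcut trajectory
  have hsp : ∀ (y R : ℝ), 1 ≤ R → ∀ F : Finset ℤ, (∀ z ∈ F, (∃ i : ℕ, S^[i] (n : ℤ) = z) ∧
      |(z : ℝ) - y| ≤ R) → (F.card : ℝ) ≤ A * R ^ (94 / 100 : ℝ) := by
    intro y R hR F hF
    obtain ⟨r, hinj', hr⟩ := Pool.Agent.H319R2.G.finite_subset_path S (n : ℤ) F
      (fun z hz => (hF z hz).1)
    have := h 1 odd_one _ (Pool.Agent.H319R2.G.tame_path S (n : ℤ) r hinj') y R hR F (by
      intro z hz
      obtain ⟨i, hi, he⟩ := hr z hz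
      exact ⟨⟨i, hi, he⟩, (hF z hz).2⟩)
    rwa [Int.cast_one, abs_one, Real.one_rpow, mul_one] at this
  set J : Finset ℕ := (Finset.range L).filter fun j => |((C^[j] n : ℕ) : ℝ) - y| ≤ R with hJ
  have h4 : near n L y R = J.card := by
    unfold near
    rw [← Set.ncard_coe_finset]
    congr 1
    ext j
    simp [hJ]
  -- the terms as integers
  set F : Finset ℤ := J.image fun j => ((C^[j] n : ℕ) : ℤ) with hF
  have hFc : F.card = J.card := by
    rw [hF]
    apply card_image_of_injOn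
    intro i hi j hj hij
    have hij' : C^[i] n = C^[j] n := by
      have : ((C^[i] n : ℕ) : ℤ) = ((C^[j] n : ℕ) : ℤ) := hij
      exact_mod_cast this
    exact hinj i (mem_range.1 (mem_filter.1 hi).1) j (mem_range.1 (mem_filter.1 hj).1) hij'
  set F1 : Finset ℤ := F.filter fun z => ∃ i : ℕ, S^[i] (n : ℤ) = z with hF1
  set F2 : Finset ℤ := F.filter fun z => ¬ ∃ i : ℕ, S^[i] (n : ℤ) = z with hF2
  have hsplit : F1.card + F2.card = F.card := card_filter_add_card_filter_not (s := F) _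
  have hFn : ∀ z ∈ F, |(z : ℝ) - y| ≤ R := by
    intro z hz
    rw [hF, mem_image] at hz
    obtain ⟨j, hj, rfl⟩ := hz
    have := (mem_filter.1 hj).2
    exact_mod_cast this
  have h1 : (F1.card : ℝ) ≤ A * R ^ (94 / 100 : ℝ) := by
    apply hsp y R hR
    intro z hz
    rw [hF1, mem_filter] at hz
    exact ⟨hz.2, hFn z hz.1⟩
  have h2 : (F2.card : ℝ) ≤ A * R ^ (94 / 100 : ℝ) := by
    have hinj2 : Set.InjOn (fun z : ℤ => (z - 1) / 3) F2 := by
      intro z hz z' hz' hzz
      have hm : ∀ w ∈ F2, ∃ i : ℕ, w = 3 * S^[i] (n : ℤ) + 1 := by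
        intro w hw
        rw [hF2, mem_filter] at hw
        obtain ⟨hw1, hw2⟩ := hw
        rw [hF, mem_image] at hw1
        obtain ⟨j, hj, rfl⟩ := hw1
        obtain ⟨i, h5 | ⟨h5, h6⟩⟩ := form n j
        · exact absurd ⟨i, h5.symm⟩ hw2
        · exact ⟨i, h6⟩
      obtain ⟨i, hi⟩ := hm z (Finset.mem_coe.1 hz)
      obtain ⟨i', hi'⟩ := hm z' (Finset.mem_coe.1 hz')
      simp only at hzz
      omega
    rw [← card_image_of_injOn hinj2]
    have h7 := hsp ((y - 1) / 3) R hR (F2.image fun z : ℤ => (z - 1) / 3) (by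
      intro w hw
      rw [mem_image] at hw
      obtain ⟨z, hz, rfl⟩ := hw
      have hz0 := hz
      rw [hF2, mem_filter] at hz
      obtain ⟨hz1, hz2⟩ := hz
      have hzn := hFn z hz1
      rw [hF, mem_image] at hz1
      obtain ⟨j, hj, rfl⟩ := hz1
      obtain ⟨i, h5 | ⟨h5, h6⟩⟩ := form n j
      · exact absurd ⟨i, h5.symm⟩ hz2
      · have h8 : (((C^[j] n : ℕ) : ℤ) - 1) / 3 = S^[i] (n : ℤ) := by omega
        refine ⟨⟨i, h8.symm⟩, ?_⟩
        rw [h8]
        rw [h6] at hzn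
        push_cast at hzn
        have e : ((S^[i] (n : ℤ) : ℤ) : ℝ) - (y - 1) / 3 = ((3 * ((S^[i] (n : ℤ) : ℤ) : ℝ) + 1) - y) / 3 := by
          ring
        rw [e, abs_div, abs_of_pos (by norm_num : (0 : ℝ) < 3), div_le_iff₀ (by norm_num)]
        linarith)
    exact h7
  rw [h4, ← hFc, ← hsplit]
  push_cast
  linarith

/-- the terms before the first visit to `1`, or all terms of a trajectory which does not enter a cycle,
are different -/
lemma distinct_of {n L : ℕ} (hL : (L : ℕ∞) ≤ l n) (hc : ¬ EntersOtherCycle n) :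
    ∀ i < L, ∀ j < L, C^[i] n = C^[j] n → i = j := by
  classical
  have key : ∀ i j : ℕ, i < j → j < L → C^[i] n ≠ C^[j] n := by
    intro i j hij hjL he
    by_cases h1 : ∃ k, C^[k] n = 1
    · have hl : l n = ((Nat.find h1 : ℕ) : ℕ∞) := by unfold l; rw [dif_pos h1]
      rw [hl, Nat.cast_le] at hL
      have hk := Nat.find_spec h1
      set k := Nat.find h1 with hkd
      have h2 : C^[k - j + i] n = 1 := by
        rw [Function.iterate_add_apply, he, ← Function.iterate_add_apply, show k - j + j = k by omega]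
        exact hk
      exact Nat.find_min h1 (show k - j + i < Nat.find h1 by omega) h2
    · refine hc ⟨i, j - i, by omega, ?_, fun m hm => h1 ⟨m, hm⟩⟩
      rw [show i + (j - i) = j by omega, he]
  intro i hi j hj he
  rcases lt_trichotomy i j with h1 | h1 | h1
  · exact absurd he (key i j h1 hj)
  · exact h1
  · exact absurd he.symm (key j i h1 hi)

/-- There is `A` such that for all `n ≥ 1` whose trajectory does not enter a cycle not containing `1`:
(1) among the terms `C^(j)(n)`, `j < L`, at most `A R^0.94` lie in `[y - R, y + R]`, for all real `y`, all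
`R ≥ 1` and all `L ≤ l(n)`;
(2) if `l(n) = k` is finite and all terms of the trajectory are `≤ V` then `k ≤ A V^0.94`;
(3) if `l(n) > n`, finite or infinite, then for every `δ > 0` with `δ n ≥ 1` and every real `y` at most
`A δ n` of the first `n` terms are at a distance `≤ (δ n)^(50/47)` from `y`; in particular some term with
`j < n` is larger than `(n / (2 A + 2))^(50/47)`, if `n ≥ 2 A + 2`. -/
theorem result : ∃ A : ℝ, 0 < A ∧ ∀ n : ℕ, 1 ≤ n → ¬ EntersOtherCycle n →
    (∀ L : ℕ, (L : ℕ∞) ≤ l n → ∀ y R : ℝ, 1 ≤ R → (near n L y R : ℝ) ≤ A * R ^ (94 / 100 : ℝ)) ∧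
    (∀ k : ℕ, l n = k → ∀ V : ℝ, 1 ≤ V → (∀ j, ((C^[j] n : ℕ) : ℝ) ≤ V) → (k : ℝ) ≤ A * V ^ (94 / 100 : ℝ)) ∧
    ((n : ℕ∞) < l n →
      (∀ δ : ℝ, 0 < δ → 1 ≤ δ * n → ∀ y : ℝ,
        (near n n y ((δ * n) ^ (50 / 47 : ℝ)) : ℝ) ≤ A * (δ * n)) ∧
      (2 * A + 2 ≤ n → ∃ j < n, ((n : ℝ) / (2 * A + 2)) ^ (50 / 47 : ℝ) < ((C^[j] n : ℕ) : ℝ))) := by
  obtain ⟨A, hA0, hA⟩ := few
  have hfew : ∀ n : ℕ, 1 ≤ n → ¬ EntersOtherCycle n → ∀ L : ℕ, (L : ℕ∞) ≤ l n → ∀ y R : ℝ, 1 ≤ R →
      (near n L y R : ℝ) ≤ A * R ^ (94 / 100 : ℝ) := by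
    intro n _ hc L hL y R hR
    exact hA n L (distinct_of hL hc) y R hR
  refine ⟨A, hA0, fun n hn hc => ⟨fun L hL y R hR => hfew n hn hc L hL y R hR, ?_, ?_⟩⟩
  · intro k hk V hV hall
    have h1 := hfew n hn hc k (by rw [hk]) 0 V hV
    have h2 : near n k 0 V = k := by
      unfold near
      have : {j : ℕ | j < k ∧ |((C^[j] n : ℕ) : ℝ) - 0| ≤ V} = (Finset.range k : Set ℕ) := by
        ext j
        simp only [Set.mem_ofPred_eq, coe_range, Set.mem_Iio, and_iff_left_iff_imp]
        intro _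
        rw [sub_zero, abs_of_nonneg (Nat.cast_nonneg _)]
        exact hall j
      rw [this, Set.ncard_coe_finset, card_range]
    rw [h2] at h1
    exact h1
  · intro hex
    have h3 : ∀ δ : ℝ, 0 < δ → 1 ≤ δ * n → ∀ y : ℝ,
        (near n n y ((δ * n) ^ (50 / 47 : ℝ)) : ℝ) ≤ A * (δ * n) := by
      intro δ hδ hδn y
      have h1 := hfew n hn hc n hex.le y ((δ * n) ^ (50 / 47 : ℝ)) (Real.one_le_rpow hδn (by norm_num))
      rw [← Real.rpow_mul (by linarith)] at h1
      norm_num at h1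
      exact h1
    refine ⟨h3, ?_⟩
    intro hnA
    by_contra hcon
    push Not at hcon
    have hn0 : (0 : ℝ) < n := by exact_mod_cast hn
    have h4 := h3 (1 / (2 * A + 2)) (by positivity) (by
      rw [div_mul_eq_mul_div, one_mul, le_div_iff₀ (by positivity)]
      linarith) 0
    have e : 1 / (2 * A + 2) * (n : ℝ) = n / (2 * A + 2) := by ring
    rw [e] at h4
    have h5 : near n n 0 (((n : ℝ) / (2 * A + 2)) ^ (50 / 47 : ℝ)) = n := by
      unfold near
      have : {j : ℕ | j < n ∧ |((C^[j] n : ℕ) : ℝ) - 0| ≤ ((n : ℝ) / (2 * A + 2)) ^ (50 / 47 : ℝ)} =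
          (Finset.range n : Set ℕ) := by
        ext j
        simp only [Set.mem_ofPred_eq, coe_range, Set.mem_Iio, and_iff_left_iff_imp]
        intro hj
        rw [sub_zero, abs_of_nonneg (Nat.cast_nonneg _)]
        exact hcon j hj
      rw [this, Set.ncard_coe_finset, card_range]
    rw [h5] at h4
    have h6 : A * ((n : ℝ) / (2 * A + 2)) < n := by
      rw [mul_div_assoc', div_lt_iff₀ (by positivity)]
      nlinarith
    linarith

end Pool.Agent.Results.MP_e43fce_nt.ClimbExplicit
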