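import Mathlib
import Pool.Agent.N909.CL.Ct

set_option autoImplicit false

/-!
# Total stopping times in random Collatz maps: the sharp constant

A random Collatz map decides for every integer `n`, one after the other, whether `n` goes up to
`⌊(3n+1)/2⌋` (a step counted twice, as `3n+1` and its half) or down to `⌊n/2⌋`.  Upper bounds: the conditional
probability of going up, given the earlier decisions, tends to `1/2` (no independence, no rate).  Almost surely all
trajectories are finite, and for every `γ > C` the whole trajectory of `n` has at most `γ log n` steps for all large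
`n`, in particular at most `n`; here `C = (1+p)/(log 2 - p log 3)`, `H(p) = p log 3`, `66.9 < C < 67.1`.  If the
convergence is uniform, the constant is sharp.

The parts of the proof in `Pool/Agent/N<k>/CL` are due to helpers 18, 196, 433, 434, 499, 624, 645, 694, 868, 950.
-/

open MeasureTheory Filter
open scoped Topology

namespace Pool.Agent.Results.MP_e43fce_nt.StepsSharpRandomMaps

/-- the Collatz map in which the elements of `S` go up -/
noncomputable def colT (S : Set ℕ) (n : ℕ) : ℕ :=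
  open Classical in if n ∈ S then (3 * n + 1) / 2 else n / 2

/-- the trajectory of `n` -/
def traj (S : Set ℕ) (n : ℕ) : Set ℕ := Set.range (fun i => (colT S)^[i] n)

/-- the number of steps on the trajectory of `n`, each step up counted twice -/
noncomputable def steps (S : Set ℕ) (n : ℕ) : ℕ := (traj S n).ncard + (traj S n ∩ S).ncard

/-- the largest number of steps for a starting value at most `x` -/
noncomputable def longest (S : Set ℕ) (x : ℕ) : ℕ := (Finset.range (x + 1)).sup (steps S)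

open Pool.Agent.R528.RM Pool.Agent.N909.CM

variable {Ω : Type} {B : ℕ → Set Ω}

lemma colT_eq (ω : Ω) : colT {n | ω ∈ B n} = T B ω := by
  funext n
  unfold colT T
  simp only [Set.mem_ofPred_eq]

lemma traj_eq (ω : Ω) (n : ℕ) : traj {n | ω ∈ B n} n = orb (T B ω) n := by
  unfold traj orb
  rw [colT_eq]

lemma steps_eq (ω : Ω) (n : ℕ) : steps {n | ω ∈ B n} n = (orb (T B ω) n).ncard + hgt B ω n := by
  unfold steps hgt
  rw [traj_eq]
  rfl

/-- **Total stopping times in random Collatz maps, the sharp constant.**  There are `1/2 < p < 1` with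
`H(p) = p log 3` (natural entropy) and `C = (1+p)/(log 2 - p log 3)`, `66.9 < C < 67.1`, such that: let `(ℱ n)` be a
filtration and `B n ∈ ℱ n` events (`n` goes up).  (1) If `P(B (n+1) | ℱ n) → 1/2` almost surely, then almost
surely every trajectory is finite, for every `γ > C` the trajectory of `n` has at most `γ log n` steps for all large `n`,
it has at most `n` steps for all large `n`, and for every `ε > 0` its values are at most `n ^ (2 + ε)` for all large `n`.  (2) If the convergence is uniform, then almost surely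
`limsup steps(n)/log n = C` and the largest number of steps for a starting value at most `x` is `(C + o(1)) log x`. -/
theorem result : ∃ p C : ℝ, 1 / 2 < p ∧ p < 1 ∧ Real.binEntropy p = p * Real.log 3 ∧
    C = (1 + p) / (Real.log 2 - p * Real.log 3) ∧ 66.9 < C ∧ C < 67.1 ∧
    (∀ {Ω : Type} {m0 : MeasurableSpace Ω} (μ : Measure Ω) [IsProbabilityMeasure μ]
      (ℱ : Filtration ℕ m0) (B : ℕ → Set Ω), (∀ n, MeasurableSet[ℱ n] (B n)) →
      (∀ᵐ ω ∂μ, Tendsto (fun n : ℕ => (μ[(B (n + 1)).indicator (fun _ => (1 : ℝ)) | ℱ n]) ω) atTop (𝓝 (1 / 2))) →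
      ∀ᵐ ω ∂μ, (∀ n, (traj {k | ω ∈ B k} n).Finite) ∧
        (∀ γ : ℝ, C < γ → ∀ᶠ n : ℕ in atTop, (steps {k | ω ∈ B k} n : ℝ) ≤ γ * Real.log n) ∧
        (∀ᶠ n : ℕ in atTop, steps {k | ω ∈ B k} n ≤ n) ∧
        ∀ ε : ℝ, 0 < ε → ∀ᶠ n : ℕ in atTop, ∀ x ∈ traj {k | ω ∈ B k} n, (x : ℝ) ≤ (n : ℝ) ^ (2 + ε)) ∧
    (∀ {Ω : Type} {m0 : MeasurableSpace Ω} (μ : Measure Ω) [IsProbabilityMeasure μ]
      (ℱ : Filtration ℕ m0) (B : ℕ → Set Ω), (∀ n, MeasurableSet[ℱ n] (B n)) →
      (∀ η : ℝ, 0 < η → ∀ᶠ n : ℕ in atTop, ∀ᵐ ω ∂μ,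
        |(μ[(B (n + 1)).indicator (fun _ => (1 : ℝ)) | ℱ n]) ω - 1 / 2| ≤ η) →
      ∀ᵐ ω ∂μ, limsup (fun n : ℕ => (steps {k | ω ∈ B k} n : ℝ) / Real.log n) atTop = C ∧
        Tendsto (fun x : ℕ => (longest {k | ω ∈ B k} x : ℝ) / Real.log x) atTop (𝓝 C)) := by
  obtain ⟨p, hp, hp1, hpe, hc1, hc2⟩ := Pool.Agent.N909.CL.const
  obtain ⟨hC1, hC2⟩ := Pool.Agent.N909.CL.const2 hc1 hc2
  refine ⟨p, _, hp, hp1, hpe, rfl, hC1, hC2, ?_, ?_⟩
  · intro Ω m0 μ _ ℱ B hB hd
    have h1 := all_finite (μ := μ) (ℱ := ℱ) hB hd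
    have h2 : ∀ᵐ ω ∂μ, ∀ m : ℕ, ∀ᶠ n : ℕ in atTop, (((orb (T B ω) n).ncard + hgt B ω n : ℕ) : ℝ) ≤
        ((1 + p) / (Real.log 2 - p * Real.log 3) + 1 / ((m : ℝ) + 1)) * Real.log n :=
      ae_all_iff.2 fun m => Pool.Agent.N909.CL.csteps_upper (μ := μ) (ℱ := ℱ) hB hd hp hp1 hpe (by
        have : (0 : ℝ) < 1 / ((m : ℝ) + 1) := by positivity
        linarith)
    have h4 : ∀ᵐ ω ∂μ, ∀ m : ℕ, ∀ᶠ n : ℕ in atTop, ∀ x ∈ orb (T B ω) n, (x : ℝ) ≤ (n : ℝ) ^ (2 + 1 / ((m : ℝ) + 1)) :=
      ae_all_iff.2 fun m => largest (μ := μ) (ℱ := ℱ) hB hd (by positivity)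
    filter_upwards [h1, h2, h4] with ω g1 g2 g4
    have g3 : ∀ γ : ℝ, (1 + p) / (Real.log 2 - p * Real.log 3) < γ → ∀ᶠ n : ℕ in atTop,
        (steps {k | ω ∈ B k} n : ℝ) ≤ γ * Real.log n := by
      intro γ hγ
      obtain ⟨m, hm⟩ := exists_nat_one_div_lt (show 0 < γ - (1 + p) / (Real.log 2 - p * Real.log 3) by linarith)
      filter_upwards [g2 m, eventually_ge_atTop 1] with n hn hn1
      rw [steps_eq]
      exact hn.trans (mul_le_mul_of_nonneg_right (by linarith) (Real.log_nonneg (by exact_mod_cast hn1)))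
    refine ⟨fun n => by rw [traj_eq]; exact g1 n, g3, ?_, ?_⟩
    swap
    · intro ε hε
      obtain ⟨m, hm⟩ := exists_nat_one_div_lt hε
      filter_upwards [g4 m, eventually_ge_atTop 1] with n hn hn1 x hx
      rw [traj_eq] at hx
      refine (hn x hx).trans (Real.rpow_le_rpow_of_exponent_le (by exact_mod_cast hn1) (by linarith))
    have hlo : (fun x : ℝ => Real.log x) =o[atTop] (fun x : ℝ => x) := Real.isLittleO_log_id_atTop
    have hlo2 := (hlo.comp_tendsto tendsto_natCast_atTop_atTop).bound (show (0 : ℝ) < 1 / 67.1 by norm_num)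
    filter_upwards [g3 67.1 hC2, hlo2, eventually_ge_atTop 1] with n hn hn2 hn3
    simp only [Function.comp_apply, Real.norm_eq_abs] at hn2
    have hn4 : (1 : ℝ) ≤ n := by exact_mod_cast hn3
    rw [abs_of_nonneg (Real.log_nonneg hn4), abs_of_nonneg (by positivity)] at hn2
    have : (steps {k | ω ∈ B k} n : ℝ) ≤ n := by
      refine hn.trans ?_
      linarith
    exact_mod_cast this
  · intro Ω m0 μ _ ℱ B hB hd
    set C : ℝ := (1 + p) / (Real.log 2 - p * Real.log 3) with hC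
    have hC0 : 0 < C := by linarith
    have h2 : ∀ᵐ ω ∂μ, ∀ m : ℕ, ∀ᶠ n : ℕ in atTop, (((orb (T B ω) n).ncard + hgt B ω n : ℕ) : ℝ) ≤
        (C + 1 / ((m : ℝ) + 1)) * Real.log n :=
      ae_all_iff.2 fun m => Pool.Agent.N909.CL.csteps_upper (μ := μ) (ℱ := ℱ) hB
        (Pool.Agent.N909.CL.hd_ae hd) hp hp1 hpe (by
        have : (0 : ℝ) < 1 / ((m : ℝ) + 1) := by positivity
        linarith)
    have h3 : ∀ᵐ ω ∂μ, ∀ m : ℕ, ∀ᶠ j : ℕ in atTop, ∃ n : ℕ, n ∈ Finset.Ioc (2 ^ j) (2 * 2 ^ j) ∧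
        (C * (1 - 1 / ((m : ℝ) + 2))) * Real.log n < (((orb (T B ω) n).ncard + hgt B ω n : ℕ) : ℝ) :=
      ae_all_iff.2 fun m => Pool.Agent.N909.CL.csteps_lower (μ := μ) (ℱ := ℱ) hB hd hp hp1 hpe (by
        have : (1 : ℝ) / ((m : ℝ) + 2) < 1 := by
          rw [div_lt_one (by positivity)]
          have : (0 : ℝ) ≤ m := Nat.cast_nonneg m
          linarith
        have : 0 < 1 - 1 / ((m : ℝ) + 2) := by linarith
        positivity) (by
        rw [← hC]
        have : (0 : ℝ) < 1 / ((m : ℝ) + 2) := by positivity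
        nlinarith)
    filter_upwards [h2, h3] with ω g2 g3
    have gu : ∀ γ : ℝ, C < γ → ∀ᶠ n : ℕ in atTop, (steps {k | ω ∈ B k} n : ℝ) ≤ γ * Real.log n := by
      intro γ hγ
      obtain ⟨m, hm⟩ := exists_nat_one_div_lt (show 0 < γ - C by linarith)
      filter_upwards [g2 m, eventually_ge_atTop 1] with n hn hn1
      rw [steps_eq]
      exact hn.trans (mul_le_mul_of_nonneg_right (by linarith) (Real.log_nonneg (by exact_mod_cast hn1)))
    have gl : ∀ γ : ℝ, 0 < γ → γ < C → ∀ᶠ j : ℕ in atTop, ∃ n : ℕ, n ∈ Finset.Ioc (2 ^ j) (2 * 2 ^ j) ∧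
        γ * Real.log n < (steps {k | ω ∈ B k} n : ℝ) := by
      intro γ hγ0 hγ
      obtain ⟨m, hm⟩ := exists_nat_one_div_lt (show 0 < 1 - γ / C by
        rw [sub_pos, div_lt_one hC0]; exact hγ)
      filter_upwards [g3 m] with j hj
      obtain ⟨n, hn, h3⟩ := hj
      refine ⟨n, hn, ?_⟩
      rw [steps_eq]
      refine lt_of_le_of_lt (mul_le_mul_of_nonneg_right ?_ (Real.log_nonneg ?_)) h3
      · have h4 : (1 : ℝ) / ((m : ℝ) + 2) ≤ 1 / ((m : ℝ) + 1) :=
          one_div_le_one_div_of_le (by positivity) (by linarith)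
        have h5 : γ / C ≤ 1 - 1 / ((m : ℝ) + 2) := by linarith
        rw [div_le_iff₀ hC0] at h5
        linarith
      · rw [Finset.mem_Ioc] at hn
        have : 0 < 2 ^ j := by positivity
        exact_mod_cast (by omega : 1 ≤ n)
    refine ⟨Pool.Agent.N909.CL.limsup_of hC0 (fun n => Nat.cast_nonneg _) gu gl, ?_⟩
    refine Pool.Agent.N909.CL.max_lim (h := fun n => (steps {k | ω ∈ B k} n : ℝ)) hC0 ?_ ?_ gu gl
    · intro x n hn
      have : steps {k | ω ∈ B k} n ≤ longest {k | ω ∈ B k} x :=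
        Finset.le_sup (f := steps {k | ω ∈ B k}) (Finset.mem_range.2 (by omega))
      exact_mod_cast this
    · intro x
      obtain ⟨n, hn, h⟩ := Finset.exists_mem_eq_sup (Finset.range (x + 1)) ⟨0, by simp⟩ (steps {k | ω ∈ B k})
      refine ⟨n, by rw [Finset.mem_range] at hn; omega, ?_⟩
      unfold longest
      rw [h]

end Pool.Agent.Results.MP_e43fce_nt.StepsSharpRandomMaps
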