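import Pool.Agent.N685.FD.P7
import Pool.Agent.N685.FD.Fbl
import Pool.Agent.N685.FD.Fbt
import Pool.Agent.N685.FD.Tbu

/-!
The predecessor tree of EVERY integer under the Collatz map, at path level: exact exponents, uniformly
in the integer, for the numbers of predecessors whose trajectory follows a given piecewise linear profile
on the side which is faster than the mean; lower bounds also on the slow side.
-/

set_option autoImplicit false

namespace Pool.Agent.Results.MP_e43fce_nt.TreesOfAllIntegers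

/-- The Collatz map. -/
def C (n : ℕ) : ℕ := if n % 2 = 0 then n / 2 else 3 * n + 1

/-- The shortcut map: one step of the Collatz map from even numbers, two steps from odd numbers. -/
def S (n : ℕ) : ℕ := if n % 2 = 0 then C n else C (C n)

/-- `g(a) = sup_θ (θ a - log (½ (2^θ + (2/3)^θ)))`. -/
noncomputable def g (a : ℝ) : ℝ :=
  ⨆ θ : ℝ, (θ * a - Real.log ((1 / 2) * ((2 : ℝ) ^ θ + (2 / 3 : ℝ) ^ θ)))

/-- The profile of a list of pairs `(a, τ)`: the continuous function which starts from the height `u`,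
has the slope `-a` during the time `τ`, for the successive pairs, and is constant afterwards. -/
noncomputable def profile : List (ℝ × ℝ) → ℝ → ℝ → ℝ
  | [], u, _ => u
  | q :: L, u, t => if t ≤ q.2 then u - q.1 * t else profile L (u - q.1 * q.2) (t - q.2)

/-- The total duration `∑ τ_i`. -/
noncomputable def duration (L : List (ℝ × ℝ)) : ℝ := (L.map fun q => q.2).sum

/-- The total descent `∑ a_i τ_i`. -/
noncomputable def descent (L : List (ℝ × ℝ)) : ℝ := (L.map fun q => q.1 * q.2).sum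

/-- The cost `∑ τ_i g(a_i)`. -/
noncomputable def cost (L : List (ℝ × ℝ)) : ℝ := (L.map fun q => q.2 * g q.1).sum

/-- The predecessors of `b` along the profile: the `n ≥ 1` with `S^K(n) = b` for some `K` with
`|K - X ∑ τ_i| ≤ δ X`, such that `|log S^j(n) - log b - X φ(j/X)| ≤ δ X` for all `0 ≤ j ≤ K`, where `φ`
is the profile which descends from the height `∑ a_i τ_i` to `0`. -/
def Predecessors (L : List (ℝ × ℝ)) (δ X : ℝ) (b : ℕ) : Set ℕ :=
  {n : ℕ | 1 ≤ n ∧ ∃ K : ℕ, |(K : ℝ) - duration L * X| ≤ δ * X ∧ S^[K] n = b ∧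
    ∀ j : ℕ, j ≤ K →
      |Real.log (S^[j] n : ℕ) - Real.log b - profile L (descent L) (j / X) * X| ≤ δ * X}

open Pool.Agent.N685.FD Pool.Agent.H395R2.G3

theorem S_eq (n : ℕ) : S n = P3.S n := by
  unfold S P3.S C
  split_ifs <;> omega

theorem S_fun : S = P3.S := funext S_eq

theorem profile_eq : ∀ (L : List (ℝ × ℝ)) (u t : ℝ), profile L u t = pro L u t
  | [], _, _ => rfl
  | q :: L, u, t => by
      unfold profile pro
      rw [profile_eq L]

theorem pred_eq (L : List (ℝ × ℝ)) (δ X : ℝ) (b : ℕ) : Predecessors L δ X b = P7.TS L δ X b := by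
  unfold Predecessors P7.TS
  rw [S_fun]
  simp only [profile_eq]
  rfl

/-- (1) Let `0 < a_i < log 2`, `g(a_i) < a_i` and `τ_i > 0` for all pairs `(a_i, τ_i)` of the list `L`.
For all `δ, ε > 0` there is `X₀` such that for all `X ≥ X₀`, EVERY integer `b ≥ 1` not divisible by `3`
has at least `exp ((∑ τ_i (a_i - g(a_i)) - ε) X)` predecessors along the profile.

(2) Let `½ log (4/3) ≤ a_i < log 2` and `τ_i > 0` for all pairs. For every `ε > 0` there is `δ₀ > 0` such
that for all `0 < δ ≤ δ₀` there is `X₀` such that for all `X ≥ X₀`, EVERY integer `b ≥ 1` has at most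
`exp ((∑ τ_i (a_i - g(a_i)) + ε) X)` predecessors along the profile. -/
theorem result :
    (∀ L : List (ℝ × ℝ), (∀ q ∈ L, 0 < q.1 ∧ q.1 < Real.log 2 ∧ 0 < q.2 ∧ g q.1 < q.1) →
      ∀ δ ε : ℝ, 0 < δ → 0 < ε → ∃ X₀ : ℝ, ∀ X : ℝ, X₀ ≤ X → ∀ b : ℕ, 1 ≤ b → ¬ 3 ∣ b →
        Real.exp ((descent L - cost L - ε) * X) ≤ (Set.ncard (Predecessors L δ X b) : ℝ)) ∧
    (∀ L : List (ℝ × ℝ), (∀ q ∈ L, Real.log (4 / 3) / 2 ≤ q.1 ∧ q.1 < Real.log 2 ∧ 0 < q.2) →
      ∀ ε : ℝ, 0 < ε → ∃ δ₀ : ℝ, 0 < δ₀ ∧ ∀ δ : ℝ, 0 < δ → δ ≤ δ₀ →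
        ∃ X₀ : ℝ, ∀ X : ℝ, X₀ ≤ X → ∀ b : ℕ, 1 ≤ b → (Predecessors L δ X b).Finite ∧
          (Set.ncard (Predecessors L δ X b) : ℝ) ≤ Real.exp ((descent L - cost L + ε) * X)) := by
  refine ⟨fun L hL δ ε hδ hε => ?_, fun L hL ε hε => ?_⟩
  · simp only [pred_eq]
    exact P7.lower t_FBL t_FBT (fun q hq => ⟨(hL q hq).1, (hL q hq).2.1, (hL q hq).2.2.1,
      sub_pos.2 (hL q hq).2.2.2⟩) hδ hε
  · simp only [pred_eq]
    obtain ⟨δ₀, h1, h2⟩ := P7.upper t_TBU hL hε
    refine ⟨δ₀, h1, fun δ hδ hδ1 => ?_⟩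
    obtain ⟨X₀, h3⟩ := h2 δ hδ hδ1
    exact ⟨X₀, fun X hX b hb => ⟨P7.ts_finite L δ X b, h3 X hX b hb⟩⟩

end Pool.Agent.Results.MP_e43fce_nt.TreesOfAllIntegers
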